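import Pool.Agent.K.MP_838999_co.C0

open Pool.Agent.P.MP_838999_co

theorem Pool.Agent.Results.MP_838999_co.ColourReduction.result (s r k : ℕ) (hs : 2 ≤ s)
    (hr : 2 ≤ r) (hk : 2 ≤ k) (h : 20 * (s : ℝ) ^ 2 * Real.log r * Real.log k ≤ k)
    (n : ℕ) (hn : HJ k ≤ n) (c : (Fin n → Fin s) → Fin r) :
    ∃ l : Combinatorics.Line (Fin s) (Fin n), l.IsMono c :=
  colour_reduction s r k hs hr hk h n hn c
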