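import Pool.Agent.K.MP_838999_co.C1

open Pool.Agent.P.MP_838999_co

theorem Pool.Agent.Results.MP_838999_co.DoubleExponential.result :
    ∃ c : ℝ, 0 < c ∧ ∃ k₀ : ℕ, ∀ k : ℕ, k₀ ≤ k →
      (2 : ℝ) ^ (2 : ℝ) ^ (c * ((k : ℝ) / Real.log k) ^ (1 / 4 : ℝ)) ≤ (HJ k : ℝ) :=
  double_exponential
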